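import Pool.Agent.MP_db5b97_nt.H31.SpecG

/-! Activity passes to an orbit, and its numerical form on a transitive set. -/

namespace Pool.Agent.MP_db5b97_nt.H9

open MulAction Pool.Agent.MP_db5b97_nt.H31

/-- a sum over `X` is at most another one as soon as this holds on each orbit -/
theorem act_sum_le_of_orbits {G X : Type} [Group G] [MulAction G X] [Fintype X] (a b : X → ℚ)
    (h : ∀ x : X, @Finset.sum (orbit G x) ℚ _ (@Finset.univ _ (Fintype.ofFinite _)) (fun y => a y) ≤
      @Finset.sum (orbit G x) ℚ _ (@Finset.univ _ (Fintype.ofFinite _)) (fun y => b y)) :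
    ∑ x, a x ≤ ∑ x, b x := by
  classical
  have hf : Fintype (orbitRel.Quotient G X) := Fintype.ofFinite _
  have key : ∀ (c : X → ℚ) (x : X),
      ∑ y ∈ Finset.univ.filter (fun y : X => (Quotient.mk'' y : orbitRel.Quotient G X) =
        Quotient.mk'' x), c y =
      @Finset.sum (orbit G x) ℚ _ (@Finset.univ _ (Fintype.ofFinite _)) (fun y => c y) := by
    intro c x
    refine @Finset.sum_subtype X ℚ _ (fun y => y ∈ orbit G x) (Fintype.ofFinite _) _ ?_ c
    intro y
    simp only [Finset.mem_filter, Finset.mem_univ, true_and]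
    rw [Quotient.eq'']
    exact orbitRel_apply
  rw [← Finset.sum_fiberwise Finset.univ
      (fun y : X => (Quotient.mk'' y : orbitRel.Quotient G X)) a,
    ← Finset.sum_fiberwise Finset.univ
      (fun y : X => (Quotient.mk'' y : orbitRel.Quotient G X)) b]
  refine Finset.sum_le_sum fun q _ => ?_
  induction q using Quotient.inductionOn' with
  | h x => rw [key a x, key b x]; exact h x

theorem act_orb (G X : Type) [Group G] [Fintype G] [MulAction G X] [Fintype X] (σ : G) (p : ℕ)
    (h : QA G X σ p) : ∃ x : X, @QA G (orbit G x) _ _ _ (Fintype.ofFinite _) σ p := by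
  obtain ⟨v, hv⟩ := h
  by_contra hn
  refine absurd hv (not_lt.mpr ?_)
  have e : ∑ g : G, ∑ i ∈ Finset.range p, ∑ x : X, v (g • x) * v (g • σ ^ i • x) =
      ∑ x : X, ∑ g : G, ∑ i ∈ Finset.range p, v (g • x) * v (g • σ ^ i • x) := by
    rw [Finset.sum_comm (s := (Finset.univ : Finset X))]
    exact Finset.sum_congr rfl fun g _ => Finset.sum_comm
  rw [e, Finset.mul_sum]
  refine act_sum_le_of_orbits (G := G) _ _ fun x => ?_
  have h1 : ¬ @QA G (orbit G x) _ _ _ (Fintype.ofFinite _) σ p := fun hq => hn ⟨x, hq⟩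
  have h2 := not_lt.mp (not_exists.mp h1 (fun y : orbit G x => v y))
  rw [Finset.mul_sum] at h2
  refine h2.trans (le_of_eq ?_)
  rw [Finset.sum_comm (s := @Finset.univ (orbit G x) (Fintype.ofFinite _))]
  exact Finset.sum_congr rfl fun g _ => Finset.sum_comm

/-- the norm form dominates `p` times the sum of squares over the fixed points -/
theorem act_norm_ge {G X : Type} [Group G] [MulAction G X] [Fintype X] [DecidableEq X] (σ : G)
    (p : ℕ) (hp : 0 < p) (hσ : ∀ x : X, σ ^ p • x = x) (u : X → ℚ) :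
    (p : ℚ) * ∑ x ∈ Finset.univ.filter (fun x : X => σ • x = x), u x ^ 2 ≤
      ∑ i ∈ Finset.range p, ∑ x : X, u x * u (σ ^ i • x) := by
  set S : X → ℚ := fun x => ∑ i ∈ Finset.range p, u (σ ^ i • x) with hS
  have hS1 : ∀ x, S (σ • x) = S x := by
    intro x
    have h1 := Finset.sum_range_succ (fun i => u (σ ^ i • x)) p
    have h2 := Finset.sum_range_succ' (fun i => u (σ ^ i • x)) p
    simp only [hσ, pow_zero, one_smul, pow_succ, mul_smul] at h1 h2
    simp only [hS]
    linarith
  have hSj : ∀ (j : ℕ) x, S (σ ^ j • x) = S x := by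
    intro j x
    induction j with
    | zero => simp
    | succ j ih => rw [pow_succ', mul_smul, hS1, ih]
  have e1 : ∑ i ∈ Finset.range p, ∑ x : X, u x * u (σ ^ i • x) = ∑ x : X, u x * S x := by
    rw [Finset.sum_comm]
    exact Finset.sum_congr rfl fun x _ => (Finset.mul_sum _ _ _).symm
  have e2 : ∀ j : ℕ, ∑ x : X, u (σ ^ j • x) * S x = ∑ x : X, u x * S x := by
    intro j
    rw [← Equiv.sum_comp (MulAction.toPerm (σ ^ j)) (fun x => u x * S x)]
    exact Finset.sum_congr rfl fun x _ => by rw [toPerm_apply, hSj]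
  have e3 : (p : ℚ) * ∑ x : X, u x * S x = ∑ x : X, S x ^ 2 := by
    have : ∑ j ∈ Finset.range p, ∑ x : X, u (σ ^ j • x) * S x = p * ∑ x : X, u x * S x := by
      rw [Finset.sum_congr rfl fun j _ => e2 j, Finset.sum_const, Finset.card_range, nsmul_eq_mul]
    rw [← this, Finset.sum_comm]
    refine Finset.sum_congr rfl fun x _ => ?_
    rw [← Finset.sum_mul, sq]
  have e4 : ∑ x ∈ Finset.univ.filter (fun x : X => σ • x = x), S x ^ 2 =
      (p : ℚ) * ((p : ℚ) * ∑ x ∈ Finset.univ.filter (fun x : X => σ • x = x), u x ^ 2) := by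
    rw [Finset.mul_sum, Finset.mul_sum]
    refine Finset.sum_congr rfl fun x hx => ?_
    have hx' : σ • x = x := (Finset.mem_filter.mp hx).2
    have hi : ∀ i : ℕ, σ ^ i • x = x := by
      intro i
      induction i with
      | zero => simp
      | succ i ih => rw [pow_succ, mul_smul, hx', ih]
    have : S x = p * u x := by
      simp only [hS, hi, Finset.sum_const, Finset.card_range, nsmul_eq_mul]
    rw [this]; ring
  have e5 : ∑ x ∈ Finset.univ.filter (fun x : X => σ • x = x), S x ^ 2 ≤ ∑ x : X, S x ^ 2 :=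
    Finset.sum_le_sum_of_subset_of_nonneg (Finset.filter_subset _ _) fun x _ _ => sq_nonneg _
  have hp' : (0 : ℚ) < p := by exact_mod_cast hp
  rw [e1]
  refine le_of_mul_le_mul_left ?_ hp'
  rw [e3, ← e4]
  exact e5

theorem act_form (G X : Type) [Group G] [Fintype G] [MulAction G X] [Fintype X] (σ : G) (p : ℕ)
    (ht : IsPretransitive G X) (hp : p.Prime) (hN : Fintype.card X < p ^ 2)
    (hσ : ∀ x : X, σ ^ p • x = x) (h : QA G X σ p) :
    (∃ x : X, σ • x ≠ x) ∧ ∃ c f : ℕ, 1 ≤ c ∧ f ≤ c ∧ Fintype.card X = c * p + f := by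
  classical
  obtain ⟨v, hv⟩ := h
  set F : Finset X := Finset.univ.filter (fun x : X => σ • x = x) with hF
  have hne : Nonempty X := by
    by_contra h0
    have : IsEmpty X := not_nonempty_iff.mp h0
    simp at hv
  obtain ⟨x0⟩ := hne
  set δ : ℚ := ∑ g : G, v (g • x0) ^ 2 with hδ
  have hc : ∀ x : X, ∑ g : G, v (g • x) ^ 2 = δ := by
    intro x
    obtain ⟨k, rfl⟩ := ht.exists_smul_eq x0 x
    rw [hδ, ← Equiv.sum_comp (Equiv.mulRight k) (fun g : G => v (g • x0) ^ 2)]
    exact Finset.sum_congr rfl fun g _ => by rw [Equiv.coe_mulRight, mul_smul]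
  have hR : (Fintype.card G : ℚ) * ∑ x : X, v x ^ 2 = Fintype.card X * δ := by
    have h1 : ∑ g : G, ∑ x : X, v (g • x) ^ 2 = (Fintype.card G : ℚ) * ∑ x : X, v x ^ 2 := by
      have : ∀ g : G, ∑ x : X, v (g • x) ^ 2 = ∑ x : X, v x ^ 2 := fun g =>
        Equiv.sum_comp (MulAction.toPerm g) (fun x => v x ^ 2)
      rw [Finset.sum_congr rfl fun g _ => this g, Finset.sum_const, Finset.card_univ, nsmul_eq_mul]
    rw [← h1, Finset.sum_comm, Finset.sum_congr rfl fun x _ => hc x, Finset.sum_const,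
      Finset.card_univ, nsmul_eq_mul]
  have hL : (p : ℚ) * (F.card * δ) ≤
      ∑ g : G, ∑ i ∈ Finset.range p, ∑ x : X, v (g • x) * v (g • σ ^ i • x) := by
    have h1 : ∑ g : G, (p : ℚ) * ∑ x ∈ F, v (g • x) ^ 2 = (p : ℚ) * (F.card * δ) := by
      rw [← Finset.mul_sum, Finset.sum_comm, Finset.sum_congr rfl fun x _ => hc x,
        Finset.sum_const, nsmul_eq_mul]
    rw [← h1]
    exact Finset.sum_le_sum fun g _ => act_norm_ge σ p hp.pos hσ (fun x => v (g • x))
  have hδ0 : 0 ≤ δ := Finset.sum_nonneg fun g _ => sq_nonneg _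
  have hlt : p * F.card < Fintype.card X := by
    have h1 : ((p : ℚ) * F.card) * δ < Fintype.card X * δ := by
      rw [mul_assoc, ← hR]; exact hL.trans_lt hv
    have h2 : (p : ℚ) * F.card < Fintype.card X := lt_of_mul_lt_mul_right h1 hδ0
    exact_mod_cast h2
  have hmod : F.card ≡ Fintype.card X [MOD p] := by
    have : Fact p.Prime := ⟨hp⟩
    have h1 : (MulAction.toPerm σ : Equiv.Perm X) ^ p ^ 1 = 1 := by
      ext x
      have h2 : (MulAction.toPerm σ : Equiv.Perm X) ^ p = MulAction.toPerm (σ ^ p) :=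
        (map_pow (toPermHom G X) σ p).symm
      rw [pow_one, h2, toPerm_apply, hσ, Equiv.Perm.one_apply]
    have h3 := Equiv.Perm.card_compl_support_modEq h1
    have h4 : (MulAction.toPerm σ : Equiv.Perm X).supportᶜ = F := by
      ext x
      simp [hF]
    rwa [h4] at h3
  have hle : F.card ≤ Fintype.card X := Finset.card_le_univ F
  obtain ⟨c, hc'⟩ := (Nat.modEq_iff_dvd' hle).mp hmod
  have hX : Fintype.card X = c * p + F.card := by rw [mul_comm]; omega
  have h2 := hp.two_le
  have hc1 : 1 ≤ c := by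
    by_contra h0
    have : c = 0 := by omega
    subst this
    nlinarith
  have hcp : c < p := by
    by_contra h0
    have : p * p ≤ c * p := Nat.mul_le_mul_right p (not_lt.mp h0)
    nlinarith
  refine ⟨?_, c, F.card, hc1, ?_, hX⟩
  · by_contra h0
    have : F = Finset.univ := by
      ext x
      simp only [hF, Finset.mem_filter, Finset.mem_univ, true_and, iff_true]
      by_contra hx
      exact h0 ⟨x, hx⟩
    rw [this, Finset.card_univ] at hlt
    nlinarith
  · by_contra h0
    obtain ⟨d, hd⟩ : ∃ d, F.card = c + 1 + d := ⟨F.card - (c + 1), by omega⟩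
    obtain ⟨e, he⟩ : ∃ e, p = c + 1 + e := ⟨p - (c + 1), by omega⟩
    rw [hX, hd, he] at hlt
    nlinarith [Nat.zero_le (c * d), Nat.zero_le (e * d), Nat.zero_le e]

theorem rowACT : RowACT := ⟨act_orb, act_form⟩

end Pool.Agent.MP_db5b97_nt.H9
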