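import Pool.Agent.MP_db5b97_nt.H31.SpecT
import Pool.Agent.MP_db5b97_nt.H19.DENS
import Pool.Agent.MP_db5b97_nt.H21.NT2

/-! The second half: base change kills a class described by its local invariants. -/

namespace Pool.Agent.MP_db5b97_nt.H9

open H85 H31 NumberField IsDedekindDomain
open scoped Pointwise

section Alg

variable {G M A B : Type} [Group G] [AddCommGroup M] [AddCommGroup A] [AddCommGroup B]
  [DistribMulAction G M] [DistribMulAction G A] [DistribMulAction G B]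

theorem post_smul (φ : A →+ B) (g : G) (h : ∀ x, φ (g • x) = g • φ x) (f : Hm M A) :
    Hm.post φ (g • f) = g • Hm.post φ f := Hm.ext fun m => by simp [h]

theorem post_tr [Fintype G] (φ : A →+ B) (h : ∀ (g : G) x, φ (g • x) = g • φ x) (f : Hm M A) :
    Hm.post φ (tr G f) = tr G (Hm.post φ f) := by
  simp only [tr_apply, map_sum, post_smul φ _ (h _)]

end Alg

theorem Nm_map' {G G' A B : Type} [Group G] [Group G'] [AddCommGroup A] [AddCommGroup B]
    [DistribMulAction G A] [DistribMulAction G' B] (f : A →+ B) (σ : G) (σ' : G') (p : ℕ)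
    (hf : ∀ x, f (σ • x) = σ' • f x) (x : A) : f (Nm σ p x) = Nm σ' p (f x) := by
  have h : ∀ (i : ℕ) x, f (σ ^ i • x) = σ' ^ i • f x := fun i => by
    induction i with
    | zero => simp
    | succ i ih => intro x; rw [pow_succ', pow_succ', mul_smul, mul_smul, hf, ih]
  simp only [Nm_apply, map_sum, h]

theorem norm_smul {F G : Type} [Field F] [NumberField F] [Group G] [MulSemiringAction G F]
    (g : G) (w : Sp F) : Ideal.absNorm (g • w).asIdeal = Ideal.absNorm w.asIdeal := by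
  rw [Ideal.absNorm_apply, Ideal.absNorm_apply, Submodule.cardQuot_apply, Submodule.cardQuot_apply]
  exact (Nat.card_congr (Ideal.quotientEquiv w.asIdeal (g • w).asIdeal
    (MulSemiringAction.toRingEquiv G (𝓞 F) g) (Ideal.pointwise_smul_def _)).toEquiv).symm

theorem two_le_norm {F : Type} [Field F] [NumberField F] (w : Sp F) :
    2 ≤ Ideal.absNorm w.asIdeal := by
  have h0 : Ideal.absNorm w.asIdeal ≠ 0 := fun h => w.ne_bot (Ideal.absNorm_eq_zero_iff.1 h)
  have h1 : Ideal.absNorm w.asIdeal ≠ 1 := fun h => w.isPrime.ne_top (Ideal.absNorm_eq_one_iff.1 h)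
  omega

section Ext

variable {k F : Type} [Field k] [NumberField k] [Field F] [NumberField F] [Algebra k F] {l : ℕ}
  {G : Type} [Group G] [MulSemiringAction G k] [MulSemiringAction G F]

theorem fd_smul {g : G} (h : ∀ x, algebraMap k F (g • x) = g • algebraMap k F x) (w : Pr F l) :
    H19.fd k (g • w) = H19.fd k w := by
  have e1 := H19.norm_pow k (g • w)
  have e2 := H19.norm_pow k w
  rw [H19.und_smul' h] at e1
  have e3 : Ideal.absNorm (g • w.und k).1.asIdeal = Ideal.absNorm (w.und k).1.asIdeal :=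
    norm_smul g (w.und k).1
  have e4 : Ideal.absNorm (g • w).1.asIdeal = Ideal.absNorm w.1.asIdeal := norm_smul g w.1
  rw [e3, e4, ← e2] at e1
  exact Nat.pow_right_injective (two_le_norm (w.und k).1) e1

theorem ram_smul {g : G} (h : ∀ x, algebraMap k F (g • x) = g • algebraMap k F x) (w : Pr F l) :
    (g • w).1.asIdeal.ramificationIdx (𝓞 k) = w.1.asIdeal.ramificationIdx (𝓞 k) := by
  obtain ⟨π, hπ⟩ := (w.und k).1.valuation_exists_uniformizer k
  have h0 : π ≠ 0 := by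
    rintro rfl
    rw [map_zero] at hπ
    exact WithZero.exp_ne_zero hπ.symm
  have h1 : ord (w.und k).1 (Un.mk π h0) = 1 := by
    rw [ord_apply, Un.val_mk, hπ, WithZero.log_exp, neg_neg]
  have h2 : ord ((g • w).und k).1 (g • Un.mk π h0) = 1 := by
    rw [H19.und_smul' h]
    exact (NT2.ord_smul k G g (w.und k).1 _).trans h1
  have e1 := NT2.ord_inc k F w.1 (Un.mk π h0)
  have e2 := NT2.ord_inc k F (g • w).1 (g • Un.mk π h0)
  have e3 : Un.inc k F (g • Un.mk π h0) = g • Un.inc k F (Un.mk π h0) := Un.ext (h π)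
  have e4 : ord (g • w).1 (g • Un.inc k F (Un.mk π h0)) = ord w.1 (Un.inc k F (Un.mk π h0)) :=
    NT2.ord_smul F G g w.1 _
  have h1' : ord (und k w.1) (Un.mk π h0) = 1 := h1
  have h2' : ord (und k (g • w).1) (g • Un.mk π h0) = 1 := h2
  rw [h1', mul_one] at e1
  rw [h2', mul_one, e3, e4, e1] at e2
  exact_mod_cast e2.symm

variable (F) in
theorem fibre (v : Pr k l) : ∃ Φ : Finset (Pr F l), (∀ y, y ∈ Φ ↔ y.und k = v) ∧
    ∑ y ∈ Φ, y.1.asIdeal.ramificationIdx (𝓞 k) * H19.fd k y = Module.finrank k F := by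
  classical
  have hf : {y : Pr F l | y.und k = v}.Finite :=
    ((und_finite k F v.1).preimage Subtype.val_injective.injOn).subset fun y hy =>
      congrArg Subtype.val hy
  refine ⟨hf.toFinset, fun y => by simp, ?_⟩
  have := v.1.isPrime
  have : Fintype (v.1.asIdeal.primesOver (𝓞 F)) :=
    (Algebra.QuasiFinite.finite_primesOver v.1.asIdeal).fintype
  have e := Ideal.sum_ramification_inertia_eq_finrank v.1.asIdeal (𝓞 F)
  rw [← IsFractionRing.finrank_eq (𝓞 k) k (𝓞 F) F] at e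
  rw [← e]
  refine Finset.sum_bij (fun y hy => ⟨y.1.asIdeal, y.1.isPrime,
    (hf.mem_toFinset.1 hy : y.und k = v) ▸ H19.liesOver k y⟩) (fun _ _ => Finset.mem_univ _)
    (fun y _ y' _ e => Subtype.ext (HeightOneSpectrum.ext (congrArg Subtype.val e))) ?_
    fun _ _ => rfl
  rintro ⟨Q, hQ, hQ'⟩ -
  have hb : Q ≠ ⊥ := Ideal.ne_bot_of_liesOver_of_ne_bot v.1.ne_bot Q
  refine ⟨⟨⟨Q, hQ, hb⟩, fun h => v.2 ?_⟩,
    hf.mem_toFinset.2 (Subtype.ext (HeightOneSpectrum.ext hQ'.over.symm)), rfl⟩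
  rw [hQ'.over, Ideal.mem_comap, map_natCast]
  exact h

theorem psi_mod {p R g0 : ℕ} (hp : p ≠ 0) (og : orderOf (g0 : ZMod l) = p ^ R) {ψ : Pr k l → ℕ}
    {ψ' : Pr F l → ℕ} (h : IsPsi p R g0 ψ) (h' : IsPsi p R g0 ψ') (y : Pr F l) :
    ψ' y ≡ ψ (y.und k) * H19.fd k y [MOD p ^ R] := by
  have hf : IsOfFinOrder (g0 : ZMod l) := orderOf_ne_zero_iff.1 (og ▸ pow_ne_zero R hp)
  rw [← og, ← hf.pow_eq_pow_iff_modEq, pow_mul, ← (h _).2, ← (h' _).2, ← Nat.cast_pow,
    H19.norm_pow]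

omit [MulSemiringAction G k] in
theorem psi_smul {p R g0 : ℕ} (hp : p ≠ 0) (og : orderOf (g0 : ZMod l) = p ^ R)
    {ψ' : Pr F l → ℕ} (h' : IsPsi p R g0 ψ') (g : G) (y : Pr F l) : ψ' (g • y) = ψ' y := by
  have hf : IsOfFinOrder (g0 : ZMod l) := orderOf_ne_zero_iff.1 (og ▸ pow_ne_zero R hp)
  refine Nat.ModEq.eq_of_lt_of_lt (m := p ^ R) ?_ (h' _).1 (h' _).1
  have e : Ideal.absNorm (g • y).1.asIdeal = Ideal.absNorm y.1.asIdeal := norm_smul g y.1
  rw [← og, ← hf.pow_eq_pow_iff_modEq, ← (h' _).2, ← (h' _).2, e]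

end Ext

theorem not_dvd_mul {p j a f : ℕ} (hp : p.Prime) (h0 : 0 < f) (hf : f ≤ p) (ha : ¬ p ^ j ∣ a) :
    ¬ p ^ (j + 1) ∣ a * f := fun h => by
  rcases hf.lt_or_eq with hf | rfl
  · exact ha ((pow_dvd_pow p j.le_succ).trans
      ((Nat.Coprime.pow_left _ ((Nat.coprime_of_lt_prime h0.ne' hf hp))).dvd_of_dvd_mul_right h))
  · rw [pow_succ] at h
    exact ha (Nat.dvd_of_mul_dvd_mul_right h0 h)

theorem comm_pr {E G Λ : Type} [Field E] [NumberField E] [Group G] [Group Λ]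
    [MulSemiringAction G E] [MulSemiringAction Λ E] {l : ℕ}
    (h : ∀ (g : G) (s : Λ) (x : E), g • s • x = s • g • x) (g : G) (s : Λ) (W : Pr E l) :
    g • s • W = s • g • W := by
  refine Subtype.ext (HeightOneSpectrum.ext (Ideal.ext fun x => ?_))
  have e : s⁻¹ • g⁻¹ • x = g⁻¹ • s⁻¹ • x := by
    ext
    exact (h g⁻¹ s⁻¹ x).symm
  refine (mem_smul_iff g (s • W.1) x).trans ((mem_smul_iff s W.1 _).trans ?_)
  refine Iff.trans ?_ ((mem_smul_iff s (g • W.1) x).trans (mem_smul_iff g W.1 _)).symm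
  rw [e]

theorem fix_pow {X G Λ : Type} [Group G] [Group Λ] [MulAction G X] [MulAction Λ X]
    (h : ∀ (g : G) (s : Λ) (x : X), g • s • x = s • g • x) {g : G} {s : Λ} {W : X}
    (hW : g • s • W = W) (n : ℕ) : g ^ n • s ^ n • W = W := by
  induction n with
  | zero => simp
  | succ n ih => rw [pow_succ, pow_succ, mul_smul, mul_smul, h g (s ^ n), hW, ih]

theorem rowPART2 (hU : RowU1) (hFR : RowFR) (hIN : RowINERT) (hC : RowCON) (hH : RowHAM)
    (hA : RowALG) : RowPART2 := by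
  intro p q R g0 r h k G E Λ k' E' Λ' M _ _ _ _ _ _ _ _ _ _ _ lam _ _ _ _ _ _ _ _ _ lam' ζ' _ _ _ _ _
    ψ c S hF hψ hsq hk hE hl hd hG hh hr hR hX htr
    ⟨h0, t, s, b, θ, hh0, ht, hs, hb, hbU, hb0, hS, hSψ, hθS, hθd, hθt, hθ⟩
  have hp := hF.pp
  obtain ⟨⟨ψ', hψ'⟩, -, hfr⟩ := hFR p q R g0 k' E' Λ' lam' ζ' hF.toCy
  obtain ⟨hfr, -⟩ := hfr ψ' hψ'
  obtain ⟨hH1, hH2, hH3⟩ := hH p q R g0 k' E' Λ' M lam' ζ' ψ' hF.toCy hψ'
  have hinv : ∀ (g : G) y, ψ' (g • y) = ψ' y := psi_smul hp.ne_zero hF.og hψ'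
  have hmod : ∀ y, ψ' y ≡ ψ (y.und k) * H19.fd k y [MOD p ^ R] := psi_mod hp.ne_zero hF.og hψ hψ'
  have hpR : p ^ (R - r + 1) ∣ p ^ R := pow_dvd_pow p (by omega)
  obtain ⟨h1, x, hh1, hx, hxθ⟩ := hC p G (Du M) (Pr k q) (Pr k' q) (Pr.und k)
    (fun y => y.1.asIdeal.ramificationIdx (𝓞 k) * H19.fd k y) S {y | ¬ p ^ (R - r + 1) ∣ ψ' y} θ hp
    (hG ▸ (dvd_pow_self p (by omega)).mul_left h) hX (fun g y => H19.und_smul' (hk g) y)
    (fun g y => by rw [ram_smul (hk g), fd_smul (hk g)]) hS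
    (fun g y (hy : ¬ _) => show ¬ _ by rwa [hinv])
    (fun w hw => by
      obtain ⟨Φ, hΦ, hΦ'⟩ := fibre k' w
      rw [hd] at hΦ'
      refine ⟨Φ, hΦ, hΦ', fun y hy hy' => ?_, fun y hy y' hy' =>
        htr y y' (((hΦ y).1 hy).symm ▸ hw) (((hΦ y).1 hy).trans ((hΦ y').1 hy').symm)⟩
      have h2 : H19.fd k y ≤ p := by
        refine le_trans (Nat.le_mul_of_pos_left _ (Nat.pos_of_ne_zero (NT2.ram_ne k y.1))) ?_
        rw [← hΦ']
        exact Finset.single_le_sum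
          (f := fun y : Pr k' q => y.1.asIdeal.ramificationIdx (𝓞 k) * H19.fd k y)
          (fun _ _ => Nat.zero_le _) hy
      refine not_dvd_mul hp (H19.fd_pos k y) h2 (hSψ w hw) ?_
      rw [← (hΦ y).1 hy]
      exact ((hmod y).dvd_iff hpR).1 hy')
    (fun g hg => by
      have := hF.gal
      obtain ⟨W, hW⟩ := hIN p 1 R q E' G Λ' g lam' hp hF.qp.ne_zero (by rwa [pow_one])
        (hF.card ▸ pow_card_eq_one') (hF.comm g lam')
      have h2 := fix_pow (comm_pr hF.comm) hW p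
      rw [hg, one_smul, hfr] at h2
      refine ⟨W.und k', fun h3 => ?_, ?_⟩
      · have h4 : p ^ (R - r + 1) ∣ p ^ 1 := by
          rw [pow_one]
          exact (Nat.dvd_gcd h3 hpR).trans h2
        have := (Nat.pow_dvd_pow_iff_le_right hp.one_lt).1 h4
        omega
      · conv_lhs => rw [← H19.und_smul k' lam' W]
        rw [← H19.und_smul' (hF.eqv g), hW])
    hθS hθd hθt
  choose e heU he using fun g => hH1 (R - r) (x g) (fun w hw => (hx g).1 w (not_not.2 hw)) (hx g).2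
  obtain ⟨u, hu⟩ := hH2 (h1 • Hm.post (Un.inc k k') b - ∑ g : G, (g • e g - e g))
    (fun m => by
      simp only [Hm.sub_apply, Hm.nsmul_apply, Hm.sum_apply, Hm.smul_apply, Hm.post_apply]
      exact sub_mem (nsmul_mem ((hU.inc' k k' q _).2 (hbU m)) _)
        (sum_mem fun g _ => sub_mem (hU.smul' k' G g q _ (heU g _)) (heU g m)))
    (fun m w => by
      have a1 := congrArg (fun f : Du M => Zt.val (f m)) (hxθ w)
      simp only [Hm.nsmul_apply, Dg.sum_apply, Hm.sum_apply, Dg.sub_apply, Hm.sub_apply,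
        Dg.smul_apply, Hm.smul_apply, Zt.smul_eq, map_nsmul, map_sum, map_sub, nsmul_eq_mul,
        Nat.cast_mul] at a1
      have a2 : ∀ g : G, ord w.1 (g • e g (g⁻¹ • m)) = ord (g⁻¹ • w).1 (e g (g⁻¹ • m)) := by
        intro g
        have : ord (g • g⁻¹ • w).1 (g • e g (g⁻¹ • m)) = ord (g⁻¹ • w).1 (e g (g⁻¹ • m)) :=
          NT2.ord_smul k' G g (g⁻¹ • w).1 _
        rwa [smul_inv_smul] at this
      have a3 : ord w.1 (Un.inc k k' (b m)) =
          w.1.asIdeal.ramificationIdx (𝓞 k) * ord (w.und k).1 (b m) := NT2.ord_inc k k' w.1 _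
      simp only [Hm.sub_apply, Hm.nsmul_apply, Hm.sum_apply, Hm.smul_apply, Hm.post_apply,
        map_nsmul, map_sum, map_sub, nsmul_eq_mul, a2, a3]
      have a4 : ((p ^ R : ℕ) : ℤ) ∣ ∑ g : G, ((ψ' w * ord (g⁻¹ • w).1 (e g (g⁻¹ • m)) -
          (p ^ (R - r) : ℕ) * Zt.val (x g (g⁻¹ • w) (g⁻¹ • m))) -
          (ψ' w * ord w.1 (e g m) - (p ^ (R - r) : ℕ) * Zt.val (x g w m))) := by
        refine Finset.dvd_sum fun g _ => dvd_sub ?_ (he g m w)
        rw [← hinv g⁻¹ w]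
        exact he g _ _
      have a5 : ((p ^ R : ℕ) : ℤ) ∣ (ψ (w.und k) * H19.fd k w : ℕ) - (ψ' w : ℤ) := (hmod w).dvd
      have a6 : ∑ g : G, ((ψ' w * ord (g⁻¹ • w).1 (e g (g⁻¹ • m)) -
          (p ^ (R - r) : ℕ) * Zt.val (x g (g⁻¹ • w) (g⁻¹ • m))) -
          (ψ' w * ord w.1 (e g m) - (p ^ (R - r) : ℕ) * Zt.val (x g w m))) =
          ψ' w * ∑ g : G, (ord (g⁻¹ • w).1 (e g (g⁻¹ • m)) - ord w.1 (e g m)) -
            (p ^ (R - r) : ℕ) * ∑ g : G, (Zt.val (x g (g⁻¹ • w) (g⁻¹ • m)) - Zt.val (x g w m)) := by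
        rw [Finset.mul_sum, Finset.mul_sum, ← Finset.sum_sub_distrib]
        exact Finset.sum_congr rfl fun g _ => by ring
      rw [a6, ← a1] at a4
      have a7 := dvd_sub (dvd_sub ((hθ m (w.und k)).mul_left
        (h1 * (w.1.asIdeal.ramificationIdx (𝓞 k) * H19.fd k w))) (a5.mul_left
        (h1 * (w.1.asIdeal.ramificationIdx (𝓞 k) * ord (w.und k).1 (b m))))) a4
      refine Eq.mp (congrArg _ ?_) a7
      push_cast
      ring)
  choose e' he' using fun g => hH2 (p ^ r • e g) (fun m => nsmul_mem (heU g m) _) fun m w => by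
    have a1 := ((he g m w).mul_left ((p ^ r : ℕ) : ℤ)).add (dvd_mul_right _ (Zt.val (x g w m)))
    refine Eq.mp (congrArg _ ?_) a1
    have : p ^ R = p ^ r * p ^ (R - r) := by
      rw [← pow_add]
      congr 1
      omega
    rw [Hm.nsmul_apply, map_nsmul, nsmul_eq_mul, this]
    push_cast
    ring
  have iE : ∀ (g : G) x, Un.inc E E' (g • x) = g • Un.inc E E' x := fun g x => Un.ext (hE g _)
  have ik : ∀ (g : G) x, Un.inc k k' (g • x) = g • Un.inc k k' x := fun g x => Un.ext (hk g _)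
  have ik' : ∀ (g : G) x, Un.inc k' E' (g • x) = g • Un.inc k' E' x :=
    fun g x => Un.ext (hF.eqv g _)
  have il : ∀ x, Un.inc E E' (lam • x) = lam' • Un.inc E E' x := fun x => Un.ext (hl _)
  have ic : ∀ (g : G) (x : Un E'), g • lam' • x = lam' • g • x :=
    fun g x => Un.ext (hF.comm g lam' _)
  have isq : ∀ x, Un.inc E E' (Un.inc k E x) = Un.inc k' E' (Un.inc k k' x) :=
    fun x => Un.ext (hsq _)
  obtain ⟨t', ht', hgt⟩ := hA G (Hm M (Un E')) (Hm.post (Df lam')) (Hm.post (Nm lam' (p ^ R)))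
    (p ^ r) h h1 (Hm.post (Un.inc E E') t) (Hm.post (Un.inc E E') s)
    (Hm.post (Un.inc k' E') (Hm.post (Un.inc k k') b)) u (fun g => Hm.post (Un.inc k' E') (e g)) e' hG
    (fun g => post_smul _ g fun x => by rw [Df_apply, Df_apply, smul_sub, ic])
    (fun g => post_smul _ g fun x =>
      (Nm_map' (DistribSMul.toAddMonoidHom (Un E') g) lam' lam' _ (ic g) x).symm)
    hH3
    (by
      rw [← post_tr _ iE, ← hs]
      exact Hm.ext fun m => by simp [Df_apply, il])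
    (Hm.ext fun m => by
      have := congrArg (fun f : Hm M (Un E) => Un.inc E E' (f m)) hb
      simp only [Hm.post_apply, Hm.nsmul_apply, map_nsmul, isq, Nm_map' _ lam lam' _ il] at this ⊢
      exact this)
    (by rw [← post_tr _ ik', ← post_tr _ ik, hb0, map_zero, map_zero])
    (by simp only [← hu, map_sub, map_nsmul, map_sum, post_smul _ _ (ik' _)])
    (fun g => by rw [← he', map_nsmul])
  refine ⟨h * h1 * h0, t', (hh.mul_left hh1).mul_left hh0, fun m => ?_, fun g => ?_⟩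
  · exact sub_eq_zero.1 (congrArg (fun f : Hm M (Un E') => f m) ht')
  · rw [hgt, ← post_smul _ g (iE g), ← map_sub, ← ht, map_nsmul, mul_smul (h * h1)]
    congr 2
    exact Hm.ext fun m => (isq _).symm

end Pool.Agent.MP_db5b97_nt.H9
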